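import Pool.Agent.Q18.HQ.Stmts

set_option autoImplicit false

namespace Pool.Agent.Q24.HQ.TaskFin

private theorem dvdM (M : ℕ) (h : M ^ 2 ∣ 767711241) :
    M ∈ ([1, 3, 11, 33, 89, 267, 979, 2937] : List ℕ) := by
  have h0 : M ∣ 767711241 := Dvd.dvd.trans ⟨M, by ring⟩ h
  have h1 : M ∣ 3 ^ 2 * (11 ^ 2 * 89 ^ 3) := by
    have : 3 ^ 2 * (11 ^ 2 * 89 ^ 3) = 767711241 := by norm_num
    rw [this]
    exact h0
  obtain ⟨a, b, ha, hb, rfl⟩ := (Nat.dvd_mul).1 h1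
  obtain ⟨b, c, hb', hc, rfl⟩ := (Nat.dvd_mul).1 hb
  obtain ⟨i, hi, rfl⟩ := (Nat.dvd_prime_pow (by norm_num : Nat.Prime 3)).1 ha
  obtain ⟨j, hj, rfl⟩ := (Nat.dvd_prime_pow (by norm_num : Nat.Prime 11)).1 hb'
  obtain ⟨l, hl, rfl⟩ := (Nat.dvd_prime_pow (by norm_num : Nat.Prime 89)).1 hc
  interval_cases i <;> interval_cases j <;> interval_cases l <;> revert h <;> decide +kernel

private theorem dvdm (M : ℕ) (h : M ^ 2 ∣ 1125000000) :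
    M ∈ ([1, 2, 4, 8, 3, 6, 12, 24, 5, 10, 20, 40, 15, 30, 60, 120, 25, 50, 100, 200, 75, 150, 300,
      600, 125, 250, 500, 1000, 375, 750, 1500, 3000, 625, 1250, 2500, 5000, 1875, 3750, 7500,
      15000] : List ℕ) := by
  have h0 : M ∣ 1125000000 := Dvd.dvd.trans ⟨M, by ring⟩ h
  have h1 : M ∣ 2 ^ 6 * (3 ^ 2 * 5 ^ 9) := by
    have : 2 ^ 6 * (3 ^ 2 * 5 ^ 9) = 1125000000 := by norm_num
    rw [this]
    exact h0
  obtain ⟨a, b, ha, hb, rfl⟩ := (Nat.dvd_mul).1 h1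
  obtain ⟨b, c, hb', hc, rfl⟩ := (Nat.dvd_mul).1 hb
  obtain ⟨i, hi, rfl⟩ := (Nat.dvd_prime_pow (by norm_num : Nat.Prime 2)).1 ha
  obtain ⟨j, hj, rfl⟩ := (Nat.dvd_prime_pow (by norm_num : Nat.Prime 3)).1 hb'
  obtain ⟨l, hl, rfl⟩ := (Nat.dvd_prime_pow (by norm_num : Nat.Prime 5)).1 hc
  interval_cases i <;> interval_cases j <;> interval_cases l <;> revert h <;> decide +kernel

private theorem check : ∀ M ∈ ([1, 3, 11, 33, 89, 267, 979, 2937] : List ℕ),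
    ∀ m ∈ ([1, 2, 4, 8, 3, 6, 12, 24, 5, 10, 20, 40, 15, 30, 60, 120, 25, 50, 100, 200, 75, 150, 300,
      600, 125, 250, 500, 1000, 375, 750, 1500, 3000, 625, 1250, 2500, 5000, 1875, 3750, 7500,
      15000] : List ℕ), ∀ k < 122,
    M ^ 2 * m ^ 2 + 72579 * m ^ 2 * k ^ 2 = m ^ 4 + 1125000000 * k ^ 4 → 0 < k →
      Nat.Coprime m k → m = 250 ∧ k = 1 := by
  decide +kernel

private theorem bound (M m k : ℕ) (hM : M ≤ 2937) (hm : m ≤ 15000)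
    (h : M ^ 2 * m ^ 2 + 72579 * m ^ 2 * k ^ 2 = m ^ 4 + 1125000000 * k ^ 4) : k < 122 := by
  by_contra hk
  have hk' : 122 ≤ k := by omega
  have h1 : M ^ 2 * m ^ 2 ≤ 2937 ^ 2 * 15000 ^ 2 :=
    Nat.mul_le_mul (Nat.pow_le_pow_left hM 2) (Nat.pow_le_pow_left hm 2)
  have h2 : 72579 * m ^ 2 * k ^ 2 ≤ 72579 * 15000 ^ 2 * k ^ 2 :=
    Nat.mul_le_mul (Nat.mul_le_mul le_rfl (Nat.pow_le_pow_left hm 2)) le_rfl
  have h3 : 122 ^ 2 ≤ k ^ 2 := Nat.pow_le_pow_left hk' 2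
  have h4 : k ^ 4 = k ^ 2 * k ^ 2 := by ring
  rw [h4] at h
  nlinarith [Nat.zero_le (m ^ 4)]

theorem main : Pool.Agent.Q18.HQ.TaskFin := by
  intro M m k hk hM hm hc h
  have hM' := dvdM M hM
  have hm' := dvdm m hm
  have hMb : M ≤ 2937 := by
    have : ∀ a ∈ ([1, 3, 11, 33, 89, 267, 979, 2937] : List ℕ), a ≤ 2937 := by decide
    exact this M hM'
  have hmb : m ≤ 15000 := by
    have : ∀ a ∈ ([1, 2, 4, 8, 3, 6, 12, 24, 5, 10, 20, 40, 15, 30, 60, 120, 25, 50, 100, 200, 75, 150, 300,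
      600, 125, 250, 500, 1000, 375, 750, 1500, 3000, 625, 1250, 2500, 5000, 1875, 3750, 7500,
      15000] : List ℕ), a ≤ 15000 := by decide
    exact this m hm'
  exact check M hM' m hm' k (bound M m k hMb hmb h) h hk hc

end Pool.Agent.Q24.HQ.TaskFin
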